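import Pool.Agent.Q147.MM.Stm2

/-!
# Project MM: one more step of part A
-/

set_option autoImplicit false

namespace Pool.Agent.Q195.MM

open Finset Filter Topology Pool.Agent.Q147.MM

theorem t_A8 : S_A8 := by
  rintro ⟨c1, C, c1p, Cp, CH⟩ κ k0 k1 ⟨δ, δ0, N1, H⟩ B B' ⟨c, cp, hc⟩ hB
  have T : Tendsto (fun N : ℕ => (Real.log (N : ℝ)) ^ (1 - κ)) atTop atTop :=
    (tendsto_rpow_atTop (by linarith : 0 < 1 - κ)).comp
      (Real.tendsto_log_atTop.comp tendsto_natCast_atTop_atTop)
  obtain ⟨N2, hN2⟩ := eventually_atTop.mp (T.eventually_ge_atTop ((C + 1) / c))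
  refine ⟨δ * c, by positivity, max N1 (max 3 N2), fun N hN => ?_⟩
  have a1 : N1 ≤ N := (le_max_left _ _).trans hN
  have a3 : 3 ≤ N := ((le_max_left _ _).trans (le_max_right _ _)).trans hN
  have a2 : N2 ≤ N := ((le_max_right _ _).trans (le_max_right _ _)).trans hN
  have N3 : (3 : ℝ) ≤ N := by exact_mod_cast a3
  have Np : (0 : ℝ) < N := by linarith
  have L1 : 1 ≤ Real.log N := by
    rw [Real.le_log_iff_exp_le Np]
    have := Real.exp_one_lt_d9
    linarith
  have Lp : 0 < Real.log N := by linarith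
  have h1 := H N a1 c cp.le B (fun y hy _ => hc y hy)
  have h2 : (∑ a ∈ upto B (zz N), (Nat.primeCounting (N / a) : ℝ)) ≤
      cnt B' N + Nat.primeCounting N + (zz N : ℝ) ^ 2 := by exact_mod_cast hB (zz N) N
  have h3 := (CH N (by omega)).2
  have h4 : (zz N : ℝ) ^ 2 ≤ N / Real.log N := by
    have hz : (zz N : ℝ) ≤ √(N : ℝ) / Real.log N := Nat.floor_le (by positivity)
    calc (zz N : ℝ) ^ 2 ≤ (√(N : ℝ) / Real.log N) ^ 2 := pow_le_pow_left₀ (Nat.cast_nonneg _) hz 2
      _ = N / (Real.log N) ^ 2 := by rw [div_pow, Real.sq_sqrt Np.le]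
      _ ≤ N / Real.log N := by
        refine div_le_div_of_nonneg_left Np.le Lp ?_
        have := mul_le_mul_of_nonneg_right L1 Lp.le
        rw [one_mul] at this
        rw [sq]
        exact this
  have h5 : (C + 1) * (N / Real.log N) ≤ c * (N / (Real.log N) ^ κ) := by
    have g1 : (C + 1) / c ≤ (Real.log N) ^ (1 - κ) := hN2 N a2
    have e : (Real.log N) ^ (1 - κ) * (Real.log N) ^ κ = Real.log N := by
      rw [← Real.rpow_add Lp]
      simp
    rw [div_le_iff₀ cp] at g1
    have g2 := mul_le_mul_of_nonneg_right g1 (by positivity : 0 ≤ (N : ℝ) / Real.log N)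
    have kp : 0 < (Real.log N) ^ κ := Real.rpow_pos_of_pos Lp _
    have g3 : (Real.log N) ^ (1 - κ) * c * ((N : ℝ) / Real.log N) = c * (N / (Real.log N) ^ κ) := by
      rw [mul_div_assoc', mul_div_assoc', div_eq_div_iff Lp.ne' kp.ne']
      linear_combination (c * N) * e
    rw [g3] at g2
    exact g2
  have h6 : (1 + δ) * c * (N / (Real.log N) ^ κ) = δ * c * (N / (Real.log N) ^ κ) +
    c * (N / (Real.log N) ^ κ) := by ring
  have h7 : (C + 1) * (N / Real.log N) = C * (N / Real.log N) + N / Real.log N := by ring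
  linarith

end Pool.Agent.Q195.MM
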